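import Pool.Agent.Lib.MP_2f27c1_co.Count

set_option autoImplicit false

/-!
# MP_2f27c1_co: graphs all of whose balls expand have a growth defect

Let `m r` be the largest size of a ball of radius `r` of a finite connected graph of degree at
most `D`, all of whose induced balls have vertex expansion at least `h > 0`, and put
`a = log (D + 1) / log (1 + h)`.  If `2 * m r ≤ N`, then for every `M ≥ 1` at most
`C * (1 + log M) * M ^ (a * (1 + a))` radii `j ≤ r` satisfy `m j * m (r - j) ≤ M * m r`, with `C`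
depending on `D` and `h` only.  Consequently Q1 has a negative answer for every sequence whose
maximal ball sizes are multiplicative up to subpolynomial factors.
-/

namespace Pool.Agent.Results.MP_2f27c1_co.GrowthDefect

/-- The largest number of vertices of a ball of radius `r` of `G`. -/
noncomputable def maxBall {N : ℕ} (G : SimpleGraph (Fin N)) (r : ℕ) : ℕ :=
  Finset.univ.sup fun v : Fin N => {w | G.dist v w ≤ r}.ncard

/-- Every induced ball of `G` has vertex expansion at least `h` (as in the frozen statement). -/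
def BallsExpand {N : ℕ} (G : SimpleGraph (Fin N)) (h : ℝ) : Prop :=
  ∀ (v : Fin N) (r : ℕ) (S : Set (Fin N)),
    S ⊆ {w | G.dist v w ≤ r} →
    2 * S.ncard ≤ {w | G.dist v w ≤ r}.ncard →
    h * (S.ncard : ℝ) ≤
      (({w | G.dist v w ≤ r ∧ w ∉ S ∧ ∃ u ∈ S, G.Adj u w}).ncard : ℝ)

open Pool.Agent.Lib.MP_2f27c1_co in
theorem coe_bl {N : ℕ} (G : SimpleGraph (Fin N)) (v : Fin N) (r : ℕ) :
    ((bl G v r : Finset (Fin N)) : Set (Fin N)) = {w | G.dist v w ≤ r} := by
  ext w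
  rw [Finset.mem_coe, mem_bl, Set.mem_ofPred_eq]

open Pool.Agent.Lib.MP_2f27c1_co in
theorem ncard_ball {N : ℕ} (G : SimpleGraph (Fin N)) (v : Fin N) (r : ℕ) :
    {w | G.dist v w ≤ r}.ncard = (bl G v r).card := by
  rw [← coe_bl, Set.ncard_coe_finset]

open Pool.Agent.Lib.MP_2f27c1_co in
theorem maxBall_eq {N : ℕ} (G : SimpleGraph (Fin N)) (r : ℕ) : maxBall G r = mb G r := by
  unfold maxBall mb
  congr 1
  ext v
  exact ncard_ball G v r

open Pool.Agent.Lib.MP_2f27c1_co in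
theorem expd_of {N : ℕ} {G : SimpleGraph (Fin N)} {h : ℝ} (hE : BallsExpand G h) :
    Expd G h := by
  intro v r S T hS h2 hT
  have h1 := hE v r (S : Set (Fin N)) (by rw [← coe_bl]; exact_mod_cast hS)
    (by rw [ncard_ball, Set.ncard_coe_finset]; exact h2)
  have h3 : {w | G.dist v w ≤ r ∧ w ∉ (S : Set (Fin N)) ∧ ∃ u ∈ (S : Set (Fin N)), G.Adj u w} =
      (T : Set (Fin N)) := by
    ext w
    have := hT w
    rw [mem_bl] at this
    simp only [Set.mem_ofPred_eq, Finset.mem_coe]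
    exact this.symm
  rw [h3, Set.ncard_coe_finset, Set.ncard_coe_finset] at h1
  exact h1

open Pool.Agent.Lib.MP_2f27c1_co in
theorem degLe_of {N : ℕ} {G : SimpleGraph (Fin N)} {D : ℕ}
    (hD : ∀ v : Fin N, (G.neighborSet v).ncard ≤ D) : DegLe G D := by
  intro v S hS
  refine le_trans ?_ (hD v)
  rw [← Set.ncard_coe_finset]
  apply Set.ncard_le_ncard
  · intro w hw
    exact hS w hw
  · exact Set.toFinite _

open Pool.Agent.Lib.MP_2f27c1_co in
theorem quantitative (D : ℕ) (h : ℝ) (hh : 0 < h) (a : ℝ)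
    (ha : a = Real.log ((D : ℝ) + 1) / Real.log (1 + h)) :
    ∃ C : ℝ, 0 < C ∧ ∀ (N : ℕ) (G : SimpleGraph (Fin N)), G.Connected →
      (∀ v : Fin N, (G.neighborSet v).ncard ≤ D) → BallsExpand G h →
      ∀ r : ℕ, 2 * maxBall G r ≤ N → ∀ M : ℝ, 1 ≤ M →
      ({j | j ≤ r ∧ (maxBall G j : ℝ) * (maxBall G (r - j) : ℝ) ≤
        M * (maxBall G r : ℝ)}.ncard : ℝ) ≤ C * (1 + Real.log M) * M ^ (a * (1 + a)) := by
  classical
  obtain ⟨C, hC, H⟩ := level_count.{0} D h hh a ha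
  refine ⟨C, hC, ?_⟩
  intro N G hG hD hE r hr M hM
  have := hG.nonempty
  have h1 := H (Fin N) G hG (degLe_of hD) (expd_of hE) r
    (by rw [Fintype.card_fin, ← maxBall_eq]; exact hr) M hM
    ((Finset.range (r + 1)).filter (fun j => (maxBall G j : ℝ) * (maxBall G (r - j) : ℝ) ≤
        M * (maxBall G r : ℝ)))
    (by
      intro j hj
      rw [Finset.mem_filter, Finset.mem_range] at hj
      rw [← maxBall_eq, ← maxBall_eq, ← maxBall_eq]
      exact ⟨by omega, hj.2⟩)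
  have h2 : {j | j ≤ r ∧ (maxBall G j : ℝ) * (maxBall G (r - j) : ℝ) ≤
        M * (maxBall G r : ℝ)} = (((Finset.range (r + 1)).filter
          (fun j => (maxBall G j : ℝ) * (maxBall G (r - j) : ℝ) ≤
          M * (maxBall G r : ℝ)) : Finset ℕ) : Set ℕ) := by
    ext j
    simp only [Set.mem_ofPred_eq, Finset.coe_filter, Finset.mem_range]
    constructor
    · rintro ⟨h3, h4⟩; exact ⟨by omega, h4⟩
    · rintro ⟨h3, h4⟩; exact ⟨by omega, h4⟩
  rw [h2, Set.ncard_coe_finset]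
  exact h1

open Pool.Agent.Lib.MP_2f27c1_co in
theorem maxBall_le_pow {N : ℕ} {G : SimpleGraph (Fin N)} {D : ℕ} (hG : G.Connected)
    (hD : ∀ v : Fin N, (G.neighborSet v).ncard ≤ D) (r : ℕ) : maxBall G r ≤ (D + 1) ^ r := by
  have := hG.nonempty
  rw [maxBall_eq]
  have h1 := mb_add_le (degLe_of hD) hG 0 r
  rw [zero_add, mb_zero hG, mul_one] at h1
  exact h1

/-- An elementary asymptotic fact. -/
theorem exists_large (A B : ℝ) (hA : 0 ≤ A) (hB : 0 ≤ B) :
    ∃ K : ℕ, A * (1 + Real.log (B * ((K : ℝ) + 1) ^ (1 / 4 : ℝ) + 1)) *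
      ((K : ℝ) + 1) ^ (1 / 2 : ℝ) < (K : ℝ) + 1 := by
  -- `log y ≤ y`, so the left side is `O((K+1)^(3/4))`
  have ht : Filter.Tendsto (fun K : ℕ => ((K : ℝ) + 1) ^ (1 / 4 : ℝ)) Filter.atTop
      Filter.atTop := by
    apply (tendsto_rpow_atTop (by norm_num : (0 : ℝ) < 1 / 4)).comp
    exact Filter.tendsto_atTop_add_const_right _ _ tendsto_natCast_atTop_atTop
  obtain ⟨K, hK⟩ := (ht.eventually_gt_atTop (A * (B + 2))).exists
  refine ⟨K, ?_⟩
  set y : ℝ := ((K : ℝ) + 1) ^ (1 / 4 : ℝ) with hy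
  have hK0 : (0 : ℝ) < (K : ℝ) + 1 := by positivity
  have hy1 : 1 ≤ y := by
    rw [hy]
    apply Real.one_le_rpow _ (by norm_num)
    have : (0 : ℝ) ≤ (K : ℝ) := Nat.cast_nonneg K
    linarith
  have h2 : ((K : ℝ) + 1) ^ (1 / 2 : ℝ) = y ^ 2 := by
    rw [hy, ← Real.rpow_natCast, ← Real.rpow_mul hK0.le]; norm_num
  have h4 : (K : ℝ) + 1 = y ^ 4 := by
    rw [hy, ← Real.rpow_natCast, ← Real.rpow_mul hK0.le]; norm_num
  have hlog : Real.log (B * y + 1) ≤ B * y := by
    have := Real.log_le_sub_one_of_pos (show 0 < B * y + 1 by positivity)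
    linarith
  rw [h2]
  calc A * (1 + Real.log (B * y + 1)) * y ^ 2 ≤ A * (1 + B * y) * y ^ 2 := by gcongr
    _ ≤ A * ((B + 2) * y) * y ^ 2 := by
        gcongr
        nlinarith
    _ = (A * (B + 2)) * y ^ 3 := by ring
    _ < y * y ^ 3 := by
        apply mul_lt_mul_of_pos_right hK (by positivity)
    _ = (K : ℝ) + 1 := by rw [h4]; ring

/-- (1) In a finite connected graph all of whose balls expand, only polynomially many (in `M`)
radii `j ≤ r` satisfy `m j * m (r - j) ≤ M * m r`.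
(2) Negative answer to Q1 for all sequences whose maximal ball sizes are multiplicative up to
subpolynomial factors (in the range where balls occupy at most half of the graph). -/
theorem result :
    (∀ (D : ℕ) (h : ℝ), 0 < h → ∃ C : ℝ, 0 < C ∧
      ∀ (N : ℕ) (G : SimpleGraph (Fin N)), G.Connected →
        (∀ v : Fin N, (G.neighborSet v).ncard ≤ D) → BallsExpand G h →
        ∀ r : ℕ, 2 * maxBall G r ≤ N → ∀ M : ℝ, 1 ≤ M →
          ({j | j ≤ r ∧ (maxBall G j : ℝ) * (maxBall G (r - j) : ℝ) ≤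
            M * (maxBall G r : ℝ)}.ncard : ℝ) ≤
          C * (1 + Real.log M) *
            M ^ (Real.log ((D : ℝ) + 1) / Real.log (1 + h) *
              (1 + Real.log ((D : ℝ) + 1) / Real.log (1 + h)))) ∧
    (∀ (D : ℕ) (N : ℕ → ℕ) (G : ∀ n, SimpleGraph (Fin (N n))),
      Filter.Tendsto N Filter.atTop Filter.atTop →
      (∀ n, (G n).Connected) →
      (∀ n (v : Fin (N n)), ((G n).neighborSet v).ncard ≤ D) →
      (∀ ε : ℝ, 0 < ε → ∃ C : ℝ, ∀ n j k : ℕ, 2 * maxBall (G n) (j + k) ≤ N n →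
        (maxBall (G n) j : ℝ) * (maxBall (G n) k : ℝ) ≤
          C * ((j : ℝ) + 1) ^ ε * (maxBall (G n) (j + k) : ℝ)) →
      ¬ ∃ h : ℝ, 0 < h ∧ ∀ n, BallsExpand (G n) h) := by
  refine ⟨fun D h hh => quantitative D h hh _ rfl, ?_⟩
  intro D N G hN hG hD hmul ⟨h, hh, hE⟩
  set a : ℝ := Real.log ((D : ℝ) + 1) / Real.log (1 + h) with ha
  obtain ⟨C₁, hC₁, H⟩ := quantitative D h hh a ha
  have ha0 : 0 ≤ a := by
    have h1 : 0 ≤ Real.log ((D : ℝ) + 1) := by
      apply Real.log_nonneg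
      have : (0 : ℝ) ≤ (D : ℝ) := Nat.cast_nonneg D
      linarith
    have h2 : 0 < Real.log (1 + h) := Real.log_pos (by linarith)
    positivity
  set b : ℝ := a * (1 + a) + 2 with hb
  have hb0 : 0 < b := by positivity
  have hb1 : 2 ≤ b := by nlinarith
  -- choose `ε` with `ε * b = 1 / 2`
  obtain ⟨C, hC⟩ := hmul (1 / (2 * b)) (by positivity)
  set B : ℝ := |C| + 1 with hB
  have hB1 : 1 ≤ B := by rw [hB]; linarith [abs_nonneg C]
  obtain ⟨K, hK⟩ := exists_large (C₁ * B ^ b) B (by positivity) (by linarith)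
  obtain ⟨n, hn⟩ := (hN.eventually_ge_atTop (2 * (D + 1) ^ K)).exists
  have hKn : 2 * maxBall (G n) K ≤ N n :=
    le_trans (Nat.mul_le_mul_left _ (maxBall_le_pow (hG n) (hD n) K)) hn
  have hK0 : (1 : ℝ) ≤ (K : ℝ) + 1 := by
    have : (0 : ℝ) ≤ (K : ℝ) := Nat.cast_nonneg K
    linarith
  set M : ℝ := B * ((K : ℝ) + 1) ^ (1 / (2 * b)) with hM
  have hp1 : 1 ≤ ((K : ℝ) + 1) ^ (1 / (2 * b)) := Real.one_le_rpow hK0 (by positivity)
  have hM1 : 1 ≤ M := by rw [hM]; nlinarith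
  have h1 := H (N n) (G n) (hG n) (hD n) (hE n) K hKn M hM1
  have h2 : {j | j ≤ K ∧ (maxBall (G n) j : ℝ) * (maxBall (G n) (K - j) : ℝ) ≤
        M * (maxBall (G n) K : ℝ)} = ((Finset.range (K + 1) : Finset ℕ) : Set ℕ) := by
    ext j
    simp only [Set.mem_ofPred_eq, Finset.coe_range, Set.mem_Iio]
    constructor
    · rintro ⟨h3, _⟩; omega
    · intro hj
      refine ⟨by omega, ?_⟩
      have hjK : j + (K - j) = K := by omega
      have h3 := hC n j (K - j) (by rw [hjK]; exact hKn)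
      rw [hjK] at h3
      refine h3.trans ?_
      apply mul_le_mul_of_nonneg_right _ (Nat.cast_nonneg _)
      have h4 : ((j : ℝ) + 1) ^ (1 / (2 * b)) ≤ ((K : ℝ) + 1) ^ (1 / (2 * b)) := by
        apply Real.rpow_le_rpow (by positivity) _ (by positivity)
        have : (j : ℝ) ≤ (K : ℝ) := by exact_mod_cast (by omega : j ≤ K)
        linarith
      have h5 : 0 ≤ ((j : ℝ) + 1) ^ (1 / (2 * b)) := by positivity
      calc C * ((j : ℝ) + 1) ^ (1 / (2 * b)) ≤ B * ((j : ℝ) + 1) ^ (1 / (2 * b)) := by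
            apply mul_le_mul_of_nonneg_right _ h5
            rw [hB]; linarith [le_abs_self C]
        _ ≤ B * ((K : ℝ) + 1) ^ (1 / (2 * b)) := by
            apply mul_le_mul_of_nonneg_left h4; linarith
  rw [h2, Set.ncard_coe_finset, Finset.card_range] at h1
  push_cast at h1
  -- bound the right side
  have hM4 : M ≤ B * ((K : ℝ) + 1) ^ (1 / 4 : ℝ) + 1 := by
    have h6 : ((K : ℝ) + 1) ^ (1 / (2 * b)) ≤ ((K : ℝ) + 1) ^ (1 / 4 : ℝ) := by
      apply Real.rpow_le_rpow_of_exponent_le hK0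
      apply one_div_le_one_div_of_le (by norm_num)
      linarith
    have : M ≤ B * ((K : ℝ) + 1) ^ (1 / 4 : ℝ) := by
      rw [hM]; apply mul_le_mul_of_nonneg_left h6; linarith
    linarith
  have hlogM : Real.log M ≤ Real.log (B * ((K : ℝ) + 1) ^ (1 / 4 : ℝ) + 1) :=
    Real.log_le_log (by linarith) hM4
  have hMb : M ^ (a * (1 + a)) ≤ B ^ b * ((K : ℝ) + 1) ^ (1 / 2 : ℝ) := by
    calc M ^ (a * (1 + a)) ≤ M ^ b := by
          apply Real.rpow_le_rpow_of_exponent_le hM1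
          rw [hb]; linarith
      _ = B ^ b * ((K : ℝ) + 1) ^ (1 / 2 : ℝ) := by
          rw [hM, Real.mul_rpow (by linarith) (by positivity), ← Real.rpow_mul (by linarith)]
          congr 2
          field_simp
  have hlog0 : 0 ≤ Real.log M := Real.log_nonneg hM1
  have hlog1 : 0 ≤ Real.log (B * ((K : ℝ) + 1) ^ (1 / 4 : ℝ) + 1) := hlog0.trans hlogM
  have h7 : C₁ * (1 + Real.log M) * M ^ (a * (1 + a)) ≤
      C₁ * B ^ b * (1 + Real.log (B * ((K : ℝ) + 1) ^ (1 / 4 : ℝ) + 1)) *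
      ((K : ℝ) + 1) ^ (1 / 2 : ℝ) := by
    calc C₁ * (1 + Real.log M) * M ^ (a * (1 + a))
        ≤ C₁ * (1 + Real.log (B * ((K : ℝ) + 1) ^ (1 / 4 : ℝ) + 1)) *
          (B ^ b * ((K : ℝ) + 1) ^ (1 / 2 : ℝ)) := by
          gcongr
      _ = _ := by ring
  linarith

end Pool.Agent.Results.MP_2f27c1_co.GrowthDefect
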