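import Pool.Agent.Lib.RegSph.Main

set_option autoImplicit false

/-!
# MP_2f27c1_co: graphs with regular spheres are no examples

If all induced balls of a finite connected graph of degree at most `D` have vertex expansion at
least `h`, and the balls around the vertices near some vertex `v` have the same size up to a
factor `K` up to the radius `R`, and the random geodesic descents from the spheres of radius `R`
around these vertices to their centres are spread over the levels between `R / 2` and `R` up to a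
factor `C` (`Regular`), then `R` is bounded in terms of `D`, `h`, `K`, `C`.
-/

namespace Pool.Agent.Results.MP_2f27c1_co.RegularSpheres

/-- Every induced ball of `G` has vertex expansion at least `h` (as in the frozen statement). -/
def BallsExpand {N : ℕ} (G : SimpleGraph (Fin N)) (h : ℝ) : Prop :=
  ∀ (v : Fin N) (r : ℕ) (S : Set (Fin N)),
    S ⊆ {w | G.dist v w ≤ r} →
    2 * S.ncard ≤ {w | G.dist v w ≤ r}.ncard →
    h * (S.ncard : ℝ) ≤
      (({w | G.dist v w ≤ r ∧ w ∉ S ∧ ∃ u ∈ S, G.Adj u w}).ncard : ℝ)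

/-- Some `μ ≥ 0` with `μ x ≤ 1` satisfies (1) `μ w ≥ ∑ μ z / p z` for all `w` at distance less than
`R` from `x`, the sum being over the neighbours `z` of `w` which are farther from `x` than `w`, and
`p z` the number of the neighbours of `z` which are nearer to `x` than `z`; (2)
`μ w ≥ 1 / (C * |B(x, s)|)` for all `w` at distance `s` from `x`, `R / 2 < s ≤ R`.
(For example: `μ w` is the probability that the descent from a random point of the sphere of
radius `R` to `x`, going from each point to a random neighbour nearer to `x`, visits `w`.) -/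
def Regular {N : ℕ} (G : SimpleGraph (Fin N)) (x : Fin N) (R : ℕ) (C : ℝ) : Prop :=
  ∃ μ : Fin N → ℝ, (∀ w, 0 ≤ μ w) ∧ μ x ≤ 1 ∧
    (∀ w, G.dist x w < R →
      ∑ᶠ z ∈ {z | G.Adj w z ∧ G.dist x z = G.dist x w + 1},
        μ z / (({y | G.Adj y z ∧ G.dist x z = G.dist x y + 1}.ncard : ℕ) : ℝ) ≤ μ w) ∧
    (∀ w, R < 2 * G.dist x w → G.dist x w ≤ R →
      1 ≤ C * (({y | G.dist x y ≤ G.dist x w}.ncard : ℕ) : ℝ) * μ w)

open Pool.Agent.Lib.MP_2f27c1_co Pool.Agent.Lib.RegSph

theorem coe_bl {N : ℕ} (G : SimpleGraph (Fin N)) (v : Fin N) (r : ℕ) :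
    ((bl G v r : Finset (Fin N)) : Set (Fin N)) = {w | G.dist v w ≤ r} := by
  ext w
  rw [Finset.mem_coe, mem_bl, Set.mem_ofPred_eq]

theorem ncard_ball {N : ℕ} (G : SimpleGraph (Fin N)) (v : Fin N) (r : ℕ) :
    {w | G.dist v w ≤ r}.ncard = (bl G v r).card := by
  rw [← coe_bl, Set.ncard_coe_finset]

theorem expd_of {N : ℕ} {G : SimpleGraph (Fin N)} {h : ℝ} (hE : BallsExpand G h) :
    Expd G h := by
  intro v r S T hS h2 hT
  have h1 := hE v r (S : Set (Fin N)) (by rw [← coe_bl]; exact_mod_cast hS)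
    (by rw [ncard_ball, Set.ncard_coe_finset]; exact h2)
  have h3 : {w | G.dist v w ≤ r ∧ w ∉ (S : Set (Fin N)) ∧ ∃ u ∈ (S : Set (Fin N)), G.Adj u w} =
      (T : Set (Fin N)) := by
    ext w
    have := hT w
    rw [mem_bl] at this
    simp only [Set.mem_ofPred_eq, Finset.mem_coe]
    exact this.symm
  rw [h3, Set.ncard_coe_finset, Set.ncard_coe_finset] at h1
  exact h1

theorem degLe_of {N : ℕ} {G : SimpleGraph (Fin N)} {D : ℕ}
    (hD : ∀ v : Fin N, (G.neighborSet v).ncard ≤ D) : DegLe G D := by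
  intro v S hS
  refine le_trans ?_ (hD v)
  rw [← Set.ncard_coe_finset]
  apply Set.ncard_le_ncard
  · intro w hw
    exact hS w hw
  · exact Set.toFinite _

theorem coe_kids {N : ℕ} (G : SimpleGraph (Fin N)) (x w : Fin N) :
    ((kids G x w : Finset (Fin N)) : Set (Fin N)) =
      {z | G.Adj w z ∧ G.dist x z = G.dist x w + 1} := by
  ext z
  rw [Finset.mem_coe, mem_kids, Set.mem_ofPred_eq]

theorem coe_pars {N : ℕ} (G : SimpleGraph (Fin N)) (x z : Fin N) :
    ((pars G x z : Finset (Fin N)) : Set (Fin N)) =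
      {y | G.Adj y z ∧ G.dist x z = G.dist x y + 1} := by
  ext y
  rw [Finset.mem_coe, mem_pars, Set.mem_ofPred_eq]

theorem reg_of {N : ℕ} {G : SimpleGraph (Fin N)} {x : Fin N} {R : ℕ} {C : ℝ}
    (hr : Regular G x R C) : Reg G x R C := by
  obtain ⟨μ, h0, h1, h2, h3⟩ := hr
  refine ⟨μ, h0, h1, ?_, ?_⟩
  · intro w hw
    refine le_trans (le_of_eq ?_) (h2 w hw)
    rw [← coe_kids, finsum_mem_coe_finset]
    refine Finset.sum_congr rfl fun z _ => ?_
    rw [← coe_pars, Set.ncard_coe_finset]
  · intro w hw hw'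
    have := h3 w hw hw'
    rwa [ncard_ball] at this

/-- For all `D`, `h > 0`, `K`, `C > 0` there is `R₀` such that no finite connected graph of degree
at most `D` with balls of vertex expansion at least `h` has a vertex `v` and a radius `R ≥ R₀` such
that for all vertices `x` at distance at most `R₀` from `v`: the ball of radius `R` around `x`
contains at most half of the vertices, the balls of the same radius `r ≤ R` around `x` and `v`
satisfy `|B(x, r)| ≤ K |B(v, r)|`, and the graph is `C`-regular at `x` up to the radius `R`. -/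
theorem result (D : ℕ) (h K C : ℝ) (hh : 0 < h) (hC : 0 < C) :
    ∃ R₀ : ℕ, ∀ (N : ℕ) (G : SimpleGraph (Fin N)), G.Connected →
      (∀ v : Fin N, (G.neighborSet v).ncard ≤ D) → BallsExpand G h →
      ¬ ∃ (v : Fin N) (R : ℕ), R₀ ≤ R ∧ ∀ x : Fin N, G.dist v x ≤ R₀ →
        2 * {w | G.dist x w ≤ R}.ncard ≤ N ∧
        (∀ r : ℕ, r ≤ R →
          ({w | G.dist x w ≤ r}.ncard : ℝ) ≤ K * ({w | G.dist v w ≤ r}.ncard : ℝ)) ∧
        Regular G x R C := by
  obtain ⟨i₁, hi₁⟩ := pow_unbounded_of_one_lt (2 * K) (by linarith : (1 : ℝ) < 1 + h)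
  obtain ⟨i₂, hi₂⟩ := pow_unbounded_of_one_lt (2 : ℝ) (by linarith : (1 : ℝ) < 1 + h)
  set i : ℕ := i₁ + i₂ + 1 with hi
  have hpow : ∀ j : ℕ, j ≤ i → (1 + h) ^ j ≤ (1 + h) ^ i := fun j hj =>
    pow_le_pow_right₀ (by linarith) hj
  have h2i : (2 : ℝ) ≤ (1 + h) ^ i := hi₂.le.trans (hpow i₂ (by omega))
  have hiK : 2 * K ≤ (1 + h) ^ i := hi₁.le.trans (hpow i₁ (by omega))
  obtain ⟨m, hm⟩ := exists_nat_gt (((D : ℝ) + 1) ^ i * ((D + ((D : ℝ) + 1) ^ i) *
    ((1 + 1 / h) * (1 + C * D))) * 4 / h)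
  refine ⟨max m (4 * i), ?_⟩
  rintro N G hc hdeg hball ⟨v, R, hR, hx⟩
  have hcard : Fintype.card (Fin N) = N := Fintype.card_fin N
  have hin : ∀ x ∈ bl G v i, G.dist v x ≤ max m (4 * i) := by
    intro x hx'
    rw [mem_bl] at hx'
    have := le_max_right m (4 * i)
    omega
  have key := main hc (degLe_of hdeg) hh hC (expd_of hball) R i (by omega) h2i hiK
    ((le_max_right m (4 * i)).trans hR) v
    (fun x hx' => by
      have := (hx x (hin x hx')).1
      rw [ncard_ball] at this
      rw [hcard]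
      exact this)
    (fun x hx' r hr => by
      have := (hx x (hin x hx')).2.1 r hr
      rw [ncard_ball, ncard_ball] at this
      exact this)
    (fun x hx' => reg_of (hx x (hin x hx')).2.2)
  have hmR : (m : ℝ) ≤ (R : ℝ) := by exact_mod_cast (le_max_left m (4 * i)).trans hR
  have h1 := hm.trans_le hmR
  rw [div_lt_iff₀ hh] at h1
  nlinarith

end Pool.Agent.Results.MP_2f27c1_co.RegularSpheres
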